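import Pool.Agent.Helper17.IAN.StN

/-! # Project IA, part N, module CYL: probability of a cylinder event -/

set_option autoImplicit false

namespace Pool.Agent.Helper14.IAN

open Finset Pool.Agent.Helper93.IA Pool.Agent.Helper17.IAN

theorem hCYL : StCYL := by
  intro hP α β γ _ _ _ _ _ _ x G _
  have h := (hP (α × β) (fun _ => Option γ) (wt x)).1 (fun e u => if G e u then 1 else 0)
  rw [← h]
  unfold Pr
  congr 1
  funext σ
  have h2 : (∏ e, (if G e (σ e) then (1 : ℝ) else 0)) = if ∀ e, G e (σ e) then 1 else 0 := by
    rw [Finset.prod_boole]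
    simp
  rw [h2]
  by_cases h3 : ∀ e, G e (σ e)
  · simp only [h3, implies_true, if_true]
  · simp only [h3, if_false]

end Pool.Agent.Helper14.IAN
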